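import Pool.Agent.H261R3.LN.SStmts

/-!
# Task Slice of the project LM of helper261 (written by helper78)
-/

set_option autoImplicit false

namespace Pool.Agent.H78R3.LN

open Pool.Agent.H261R3.LN
open Pool.Agent.H261R3.LH (Lip1 clip)

namespace SliceAux

theorem clip_nn (x : ℝ) : 0 ≤ clip x := le_max_left _ _

theorem clip_le (x : ℝ) : clip x ≤ 1 := max_le zero_le_one (min_le_left _ _)

theorem clip_lip (x y : ℝ) : |clip x - clip y| ≤ |x - y| := by
  unfold clip
  refine (abs_max_sub_max_le_max 0 (min 1 x) 0 (min 1 y)).trans (max_le (by simp) ?_)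
  exact (abs_min_sub_min_le_max 1 x 1 y).trans (max_le (by simp) le_rfl)

theorem clip_of_nonpos {x : ℝ} (h : x ≤ 0) : clip x = 0 := by
  unfold clip
  exact max_eq_left ((min_le_right _ _).trans h)

theorem clip_of_one_le {x : ℝ} (h : 1 ≤ x) : clip x = 1 := by
  unfold clip
  rw [min_eq_left h]
  exact max_eq_right zero_le_one

theorem clip_le_self {x : ℝ} (h : 0 ≤ x) : clip x ≤ x := max_le h (min_le_right _ _)

theorem min_le_clip (x : ℝ) : min 1 x ≤ clip x := le_max_right _ _

/-- distance to the walls -/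
noncomputable def dw (x : ℝ) : ℝ := |x - 1 / 6 - round (x - 1 / 6)|

theorem dw_le (x : ℝ) (n : ℤ) : dw x ≤ |x - (n + 1 / 6)| := by
  calc dw x ≤ |x - 1 / 6 - n| := round_le (x - 1 / 6) n
    _ = |x - (n + 1 / 6)| := by congr 1; ring

theorem dw_ex (x : ℝ) : ∃ n : ℤ, dw x = |x - (n + 1 / 6)| :=
  ⟨round (x - 1 / 6), by unfold dw; congr 1; ring⟩

theorem dw_nonneg (x : ℝ) : 0 ≤ dw x := abs_nonneg _

theorem dw_lip' (x y : ℝ) : dw x ≤ dw y + |x - y| := by
  obtain ⟨n, hn⟩ := dw_ex y
  refine (dw_le x n).trans ?_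
  rw [hn]
  calc |x - (n + 1 / 6)| = |(y - (n + 1 / 6)) + (x - y)| := by congr 1; ring
    _ ≤ |y - (n + 1 / 6)| + |x - y| := abs_add_le _ _

theorem dw_lip (x y : ℝ) : |dw x - dw y| ≤ |x - y| := by
  rw [abs_le]
  have h1 := dw_lip' x y
  have h2 := dw_lip' y x
  rw [abs_sub_comm y x] at h2
  constructor <;> linarith

/-- complementary cutoff -/
noncomputable def ew (x : ℝ) : ℝ := 1 - clip (200 * dw x - 1)

theorem ew_nonneg (x : ℝ) : 0 ≤ ew x := by
  have := clip_le (200 * dw x - 1)
  unfold ew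
  linarith

theorem ew_le (x : ℝ) : ew x ≤ 1 := by
  have := clip_nn (200 * dw x - 1)
  unfold ew
  linarith

theorem ew_lip (x y : ℝ) : |ew x - ew y| ≤ 200 * |x - y| := by
  have h1 := clip_lip (200 * dw y - 1) (200 * dw x - 1)
  have h2 : |200 * dw y - 1 - (200 * dw x - 1)| = 200 * |dw y - dw x| := by
    rw [show 200 * dw y - 1 - (200 * dw x - 1) = 200 * (dw y - dw x) by ring, abs_mul]
    norm_num
  have h3 := dw_lip y x
  rw [abs_sub_comm y x] at h3
  have h4 : ew x - ew y = clip (200 * dw y - 1) - clip (200 * dw x - 1) := by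
    unfold ew
    ring
  rw [h4]
  linarith

/-- the profile on a gap -/
noncomputable def hh (s : ℝ) : ℝ := (clip (200 * s) + clip (200 * s - 199)) / 2

theorem hh_nonneg (s : ℝ) : 0 ≤ hh s := by
  have := clip_nn (200 * s)
  have := clip_nn (200 * s - 199)
  unfold hh
  linarith

theorem hh_le (s : ℝ) : hh s ≤ 1 := by
  have := clip_le (200 * s)
  have := clip_le (200 * s - 199)
  unfold hh
  linarith

theorem hh_le' {s : ℝ} (h : 0 ≤ s) : hh s ≤ 200 * s := by
  have h1 := clip_le_self (x := 200 * s) (by linarith)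
  have h2 : clip (200 * s - 199) ≤ 200 * s := by
    unfold clip
    exact max_le (by linarith) ((min_le_right _ _).trans (by linarith))
  unfold hh
  linarith

theorem hh_ge' {s : ℝ} (h : s ≤ 1) : 1 - hh s ≤ 200 * (1 - s) := by
  have h1 : 1 - 200 * (1 - s) ≤ clip (200 * s) :=
    le_trans (le_min (by linarith) (by linarith)) (min_le_clip _)
  have h2 : 1 - 200 * (1 - s) ≤ clip (200 * s - 199) :=
    le_trans (le_min (by linarith) (by linarith)) (min_le_clip _)
  unfold hh
  linarith

theorem hh_lip (s s' : ℝ) : |hh s - hh s'| ≤ 200 * |s - s'| := by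
  have h1 := clip_lip (200 * s) (200 * s')
  have h2 := clip_lip (200 * s - 199) (200 * s' - 199)
  have h3 : |200 * s - 200 * s'| = 200 * |s - s'| := by
    rw [← mul_sub, abs_mul]; norm_num
  have h4 : |200 * s - 199 - (200 * s' - 199)| = 200 * |s - s'| := by
    rw [show 200 * s - 199 - (200 * s' - 199) = 200 * (s - s') by ring, abs_mul]; norm_num
  rw [h3] at h1
  rw [h4] at h2
  have h5 : hh s - hh s' = ((clip (200 * s) - clip (200 * s')) +
      (clip (200 * s - 199) - clip (200 * s' - 199))) / 2 := by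
    unfold hh
    ring
  rw [h5, abs_div, abs_two]
  have h6 := abs_add_le (clip (200 * s) - clip (200 * s'))
    (clip (200 * s - 199) - clip (200 * s' - 199))
  linarith

theorem hh_mid {s : ℝ} (h1 : 1 / 200 ≤ s) (h2 : s ≤ 199 / 200) : hh s = 1 / 2 := by
  unfold hh
  rw [clip_of_one_le (by linarith), clip_of_nonpos (by linarith)]
  norm_num

/-- the map that contracts the gaps to their centres -/
noncomputable def Psi (x : ℝ) : ℝ := ⌊x - 1 / 6⌋ + 1 / 6 + hh (Int.fract (x - 1 / 6))

theorem fl (x : ℝ) : x = ⌊x - 1 / 6⌋ + 1 / 6 + Int.fract (x - 1 / 6) := by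
  have := Int.floor_add_fract (x - 1 / 6)
  linarith

theorem Psi_sub (x : ℝ) : |Psi x - x| ≤ 1 := by
  have h1 : Psi x - x = hh (Int.fract (x - 1 / 6)) - Int.fract (x - 1 / 6) := by
    have := fl x
    unfold Psi
    linarith
  rw [h1, abs_le]
  have := hh_nonneg (Int.fract (x - 1 / 6))
  have := hh_le (Int.fract (x - 1 / 6))
  have := Int.fract_nonneg (x - 1 / 6)
  have := (Int.fract_lt_one (x - 1 / 6)).le
  constructor <;> linarith

theorem Psi_lip' {x y : ℝ} (hxy : x ≤ y) : |Psi x - Psi y| ≤ 200 * |x - y| := by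
  have hk : ⌊x - 1 / 6⌋ ≤ ⌊y - 1 / 6⌋ := Int.floor_le_floor (by linarith)
  have hx := fl x
  have hy := fl y
  rcases hk.eq_or_lt with h | h
  · have h1 : Psi x - Psi y = hh (Int.fract (x - 1 / 6)) - hh (Int.fract (y - 1 / 6)) := by
      unfold Psi
      rw [h]
      ring
    have h2 : x - y = Int.fract (x - 1 / 6) - Int.fract (y - 1 / 6) := by
      rw [h] at hx
      linarith
    rw [h1, h2]
    exact hh_lip _ _
  · have h1 : ((⌊x - 1 / 6⌋ : ℤ) : ℝ) + 1 ≤ ⌊y - 1 / 6⌋ := by exact_mod_cast h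
    have h2 := hh_nonneg (Int.fract (x - 1 / 6))
    have h3 := hh_le (Int.fract (x - 1 / 6))
    have h4 := hh_nonneg (Int.fract (y - 1 / 6))
    have h5 := hh_le (Int.fract (y - 1 / 6))
    have h6 := hh_le' (Int.fract_nonneg (y - 1 / 6))
    have h7 := hh_ge' (Int.fract_lt_one (x - 1 / 6)).le
    rw [abs_sub_comm x y, abs_of_nonneg (by linarith : (0 : ℝ) ≤ y - x), abs_le]
    unfold Psi
    constructor <;> linarith

theorem Psi_lip (x y : ℝ) : |Psi x - Psi y| ≤ 200 * |x - y| := by
  rcases le_total x y with h | h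
  · exact Psi_lip' h
  · rw [abs_sub_comm, abs_sub_comm x y]
    exact Psi_lip' h

theorem deep {x : ℝ} (h : 1 / 200 < dw x) : hh (Int.fract (x - 1 / 6)) = 1 / 2 := by
  have hx := fl x
  have h1 := dw_le x ⌊x - 1 / 6⌋
  have h2 := dw_le x (⌊x - 1 / 6⌋ + 1)
  have h3 := Int.fract_nonneg (x - 1 / 6)
  have h4 := (Int.fract_lt_one (x - 1 / 6)).le
  have e1 : x - (⌊x - 1 / 6⌋ + 1 / 6) = Int.fract (x - 1 / 6) := by linarith
  have e2 : x - (((⌊x - 1 / 6⌋ + 1 : ℤ) : ℝ) + 1 / 6) = -(1 - Int.fract (x - 1 / 6)) := by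
    push_cast
    linarith
  rw [e1, abs_of_nonneg h3] at h1
  rw [e2, abs_neg, abs_of_nonneg (by linarith)] at h2
  exact hh_mid (by linarith) (by linarith)

theorem wall' {x y : ℝ} (hx : 1 / 200 < dw x) (hy : 1 / 200 < dw y) (hne : Psi x ≠ Psi y)
    (hxy : x ≤ y) : dw x + dw y ≤ |x - y| := by
  have hk : ⌊x - 1 / 6⌋ ≤ ⌊y - 1 / 6⌋ := Int.floor_le_floor (by linarith)
  rcases hk.eq_or_lt with h | h
  · exfalso
    apply hne
    unfold Psi
    rw [h, deep hx, deep hy]
  · have h1 : ((⌊x - 1 / 6⌋ : ℤ) : ℝ) + 1 ≤ ⌊y - 1 / 6⌋ := by exact_mod_cast h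
    have fx := fl x
    have fy := fl y
    have a1 := (Int.fract_lt_one (x - 1 / 6)).le
    have a2 := Int.fract_nonneg (y - 1 / 6)
    have b1 := dw_le x ⌊y - 1 / 6⌋
    have b2 := dw_le y ⌊y - 1 / 6⌋
    rw [abs_of_nonpos (by linarith)] at b1
    rw [abs_of_nonneg (by linarith)] at b2
    rw [abs_of_nonpos (by linarith)]
    linarith

theorem wall {x y : ℝ} (hx : 1 / 200 < dw x) (hy : 1 / 200 < dw y) (hne : Psi x ≠ Psi y) :
    dw x + dw y ≤ |x - y| := by
  rcases le_total x y with h | h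
  · exact wall' hx hy hne h
  · rw [add_comm, abs_sub_comm]
    exact wall' hy hx hne.symm h

section
variable {m : ℕ}

/-- the cutoff -/
noncomputable def chi (x : Fin m → ℝ) : ℝ := 1 - ‖fun i => ew (x i)‖

theorem chi_le_one (x : Fin m → ℝ) : chi x ≤ 1 := by
  have := norm_nonneg (fun i => ew (x i))
  unfold chi
  linarith

theorem chi_nonneg (x : Fin m → ℝ) : 0 ≤ chi x := by
  have : ‖fun i => ew (x i)‖ ≤ 1 := by
    rw [pi_norm_le_iff_of_nonneg zero_le_one]
    intro i
    rw [Real.norm_eq_abs, abs_of_nonneg (ew_nonneg _)]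
    exact ew_le _
  unfold chi
  linarith

theorem chi_le (x : Fin m → ℝ) (i : Fin m) : chi x ≤ clip (200 * dw (x i) - 1) := by
  have h := norm_le_pi_norm (fun i => ew (x i)) i
  simp only [Real.norm_eq_abs] at h
  have h2 := le_abs_self (ew (x i))
  have h3 : ew (x i) = 1 - clip (200 * dw (x i) - 1) := rfl
  unfold chi
  linarith

theorem chi_lip (x y : Fin m → ℝ) : |chi x - chi y| ≤ 200 * dist x y := by
  have h1 : chi x - chi y = ‖fun i => ew (y i)‖ - ‖fun i => ew (x i)‖ := by
    unfold chi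
    ring
  rw [h1]
  refine (abs_norm_sub_norm_le _ _).trans ?_
  rw [pi_norm_le_iff_of_nonneg (by positivity)]
  intro i
  have h2 := ew_lip (y i) (x i)
  have h3 := dist_le_pi_dist x y i
  rw [Real.dist_eq] at h3
  rw [abs_sub_comm (y i) (x i)] at h2
  simp only [Pi.sub_apply, Real.norm_eq_abs]
  linarith

theorem chi_far {x : Fin m → ℝ} (h : Far 0 (1 / 100) x) : chi x = 1 := by
  have h0 : (fun i => ew (x i)) = 0 := by
    funext i
    obtain ⟨n, hn⟩ := dw_ex (x i)
    have h1 := h i n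
    rw [zpow_zero, one_mul, ← hn] at h1
    have h2 : clip (200 * dw (x i) - 1) = 1 := clip_of_one_le (by linarith)
    simp only [ew, h2, sub_self, Pi.zero_apply]
  unfold chi
  rw [h0, norm_zero, sub_zero]

theorem deep_of_chi {x : Fin m → ℝ} (h : 0 < chi x) (i : Fin m) : 1 / 200 < dw (x i) := by
  by_contra hcon
  push Not at hcon
  have h1 := chi_le x i
  rw [clip_of_nonpos (by linarith)] at h1
  linarith

theorem chi_add {x y : Fin m → ℝ} (hne : (fun i => Psi (x i)) ≠ fun i => Psi (y i)) :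
    chi x + chi y ≤ 200 * dist x y := by
  have hL := chi_lip x y
  rw [abs_le] at hL
  rcases (chi_nonneg x).eq_or_lt with hx | hx
  · linarith [hL.1, hL.2]
  rcases (chi_nonneg y).eq_or_lt with hy | hy
  · linarith [hL.1, hL.2]
  have : ∃ i, Psi (x i) ≠ Psi (y i) := by
    by_contra hcon
    push Not at hcon
    exact hne (funext hcon)
  obtain ⟨i, hi⟩ := this
  have h1 := wall (deep_of_chi hx i) (deep_of_chi hy i) hi
  have h2 := dist_le_pi_dist x y i
  rw [Real.dist_eq] at h2
  have dx := deep_of_chi hx i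
  have dy := deep_of_chi hy i
  have h3 := (chi_le x i).trans (clip_le_self (by linarith))
  have h4 := (chi_le y i).trans (clip_le_self (by linarith))
  linarith

/-- the homotopy of the identity -/
noncomputable def mv (u : ℝ) (x : Fin m → ℝ) : Fin m → ℝ := fun i => x i + u * (Psi (x i) - x i)

theorem mv_lip {u : ℝ} (h0 : 0 ≤ u) (h1 : u ≤ 1) (x y : Fin m → ℝ) :
    dist (mv u x) (mv u y) ≤ 200 * dist x y := by
  rw [dist_pi_le_iff (by positivity)]
  intro i
  have h2 := dist_le_pi_dist x y i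
  rw [Real.dist_eq] at h2 ⊢
  have h3 := Psi_lip (x i) (y i)
  have h4 : mv u x i - mv u y i = (1 - u) * (x i - y i) + u * (Psi (x i) - Psi (y i)) := by
    simp only [mv]
    ring
  rw [h4]
  refine (abs_add_le _ _).trans ?_
  rw [abs_mul, abs_mul, abs_of_nonneg h0, abs_of_nonneg (by linarith : (0 : ℝ) ≤ 1 - u)]
  have h5 : (1 - u) * |x i - y i| ≤ (1 - u) * (200 * |x i - y i|) :=
    mul_le_mul_of_nonneg_left (by linarith [abs_nonneg (x i - y i)]) (by linarith)
  have h6 : u * |Psi (x i) - Psi (y i)| ≤ u * (200 * |x i - y i|) :=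
    mul_le_mul_of_nonneg_left h3 h0
  have h7 : (1 - u) * (200 * |x i - y i|) + u * (200 * |x i - y i|) = 200 * |x i - y i| := by
    ring
  linarith

theorem mv_one (x : Fin m → ℝ) : mv 1 x = fun i => Psi (x i) := by
  funext i
  simp only [mv]
  ring

theorem mv_zero (x : Fin m → ℝ) : mv 0 x = x := by
  funext i
  simp only [mv]
  ring

theorem mv_t (u u' : ℝ) (x : Fin m → ℝ) : dist (mv u x) (mv u' x) ≤ |u - u'| := by
  rw [dist_pi_le_iff (abs_nonneg _)]
  intro i
  rw [Real.dist_eq]
  have h4 : mv u x i - mv u' x i = (u - u') * (Psi (x i) - x i) := by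
    simp only [mv]
    ring
  rw [h4, abs_mul]
  calc |u - u'| * |Psi (x i) - x i| ≤ |u - u'| * 1 :=
        mul_le_mul_of_nonneg_left (Psi_sub _) (abs_nonneg _)
    _ = |u - u'| := mul_one _

end

end SliceAux

open SliceAux in
theorem taskSlice : TaskSlice := by
  intro S _ p m hP C
  obtain ⟨Cp, hCp, hP⟩ := hP
  choose P hPL hP0 hP1 using hP
  refine ⟨200 * |C| + 200 * Cp, by positivity, fun f hf => ?_⟩
  have hf' : ∀ x y, dist (f x) (f y) ≤ |C| * dist x y := fun x y =>
    (hf x y).trans (mul_le_mul_of_nonneg_right (le_abs_self C) dist_nonneg)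
  have hPd : ∀ (a : S) (s : ℝ), 0 ≤ s → dist (P a s) a ≤ Cp * s := by
    intro a s hs
    have := hPL a s 0
    rw [hP0, sub_zero, abs_of_nonneg hs] at this
    exact this
  have huv : ∀ t : ℝ, clip (2 * t - 1) ≠ 0 → clip (2 * t) = 1 := by
    intro t ht
    apply clip_of_one_le
    by_contra hcon
    push Not at hcon
    exact ht (clip_of_nonpos (by linarith))
  refine ⟨fun t x => P (f (mv (clip (2 * t)) x)) (clip (2 * t - 1) * chi x), ?_, ?_, ?_, ?_⟩
  · intro t x y
    have hu0 := clip_nn (2 * t)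
    have hu1 := clip_le (2 * t)
    have hv0 := clip_nn (2 * t - 1)
    have hv1 := clip_le (2 * t - 1)
    have hd : 0 ≤ dist x y := dist_nonneg
    have hm := (hf' (mv (clip (2 * t)) x) (mv (clip (2 * t)) y)).trans
      (mul_le_mul_of_nonneg_left (mv_lip hu0 hu1 x y) (abs_nonneg C))
    have hCpd : 0 ≤ Cp * dist x y := mul_nonneg hCp hd
    have hCd : 0 ≤ |C| * dist x y := mul_nonneg (abs_nonneg C) hd
    by_cases hv : clip (2 * t - 1) = 0
    · simp only [hv, zero_mul, hP0]
      nlinarith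
    · have hu := huv t hv
      simp only [hu] at hm ⊢
      by_cases hE : (fun i => Psi (x i)) = fun i => Psi (y i)
      · have h1 : mv 1 x = mv 1 y := by rw [mv_one, mv_one, hE]
        rw [h1]
        refine (hPL _ _ _).trans ?_
        rw [← mul_sub, abs_mul, abs_of_nonneg hv0]
        have h2 := chi_lip x y
        have h3 : clip (2 * t - 1) * |chi x - chi y| ≤ 1 * (200 * dist x y) :=
          mul_le_mul hv1 h2 (abs_nonneg _) zero_le_one
        have h4 := mul_le_mul_of_nonneg_left h3 hCp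
        nlinarith
      · have h2 := chi_add hE
        have hx := chi_nonneg x
        have hy := chi_nonneg y
        have h3 := hPd (f (mv 1 x)) (clip (2 * t - 1) * chi x) (mul_nonneg hv0 hx)
        have h4 := hPd (f (mv 1 y)) (clip (2 * t - 1) * chi y) (mul_nonneg hv0 hy)
        have h5 : clip (2 * t - 1) * chi x ≤ chi x := mul_le_of_le_one_left hx hv1
        have h6 : clip (2 * t - 1) * chi y ≤ chi y := mul_le_of_le_one_left hy hv1
        have h7 := mul_le_mul_of_nonneg_left h5 hCp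
        have h8 := mul_le_mul_of_nonneg_left h6 hCp
        have h9 := mul_le_mul_of_nonneg_left h2 hCp
        have h10 := dist_triangle4 (P (f (mv 1 x)) (clip (2 * t - 1) * chi x)) (f (mv 1 x))
          (f (mv 1 y)) (P (f (mv 1 y)) (clip (2 * t - 1) * chi y))
        rw [dist_comm (f (mv 1 y)) (P (f (mv 1 y)) (clip (2 * t - 1) * chi y))] at h10
        nlinarith
  · intro x
    have hc0 := chi_nonneg x
    have hc1 := chi_le_one x
    have hut : ∀ s t : ℝ, |clip (2 * s) - clip (2 * t)| ≤ 2 * |s - t| := by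
      intro s t
      refine (clip_lip _ _).trans (le_of_eq ?_)
      rw [← mul_sub, abs_mul, abs_two]
    have hvt : ∀ s t : ℝ, |clip (2 * s - 1) - clip (2 * t - 1)| ≤ 2 * |s - t| := by
      intro s t
      refine (clip_lip _ _).trans (le_of_eq ?_)
      rw [show 2 * s - 1 - (2 * t - 1) = 2 * (s - t) by ring, abs_mul, abs_two]
    have key : ∀ s t : ℝ, clip (2 * s - 1) = 0 →
        dist (P (f (mv (clip (2 * s)) x)) (clip (2 * s - 1) * chi x))
          (P (f (mv (clip (2 * t)) x)) (clip (2 * t - 1) * chi x)) ≤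
          (200 * |C| + 200 * Cp) * |s - t| := by
      intro s t hs
      have hst : 0 ≤ |s - t| := abs_nonneg _
      have hv := hvt s t
      rw [hs, zero_sub, abs_neg, abs_of_nonneg (clip_nn _)] at hv
      rw [hs, zero_mul, hP0]
      have h1 := dist_triangle (f (mv (clip (2 * s)) x)) (f (mv (clip (2 * t)) x))
        (P (f (mv (clip (2 * t)) x)) (clip (2 * t - 1) * chi x))
      have h2 := (hf' (mv (clip (2 * s)) x) (mv (clip (2 * t)) x)).trans
        (mul_le_mul_of_nonneg_left ((mv_t (clip (2 * s)) (clip (2 * t)) x).trans (hut s t))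
          (abs_nonneg C))
      have h3 := hPd (f (mv (clip (2 * t)) x)) (clip (2 * t - 1) * chi x)
        (mul_nonneg (clip_nn _) hc0)
      rw [dist_comm] at h3
      have h4 : clip (2 * t - 1) * chi x ≤ 2 * |s - t| :=
        (mul_le_of_le_one_right (clip_nn _) hc1).trans hv
      have h5 := mul_le_mul_of_nonneg_left h4 hCp
      have h6 : 0 ≤ |C| * |s - t| := mul_nonneg (abs_nonneg _) hst
      have h7 : 0 ≤ Cp * |s - t| := mul_nonneg hCp hst
      nlinarith
    intro s t
    by_cases hs : clip (2 * s - 1) = 0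
    · exact key s t hs
    by_cases ht : clip (2 * t - 1) = 0
    · have := key t s ht
      rw [dist_comm, abs_sub_comm]
      exact this
    · have hus := huv s hs
      have hut' := huv t ht
      simp only [hus, hut']
      refine (hPL _ _ _).trans ?_
      rw [← sub_mul, abs_mul, abs_of_nonneg hc0]
      have h3 : |clip (2 * s - 1) - clip (2 * t - 1)| * chi x ≤ (2 * |s - t|) * 1 :=
        mul_le_mul (hvt s t) hc1 hc0 (by positivity)
      have h4 := mul_le_mul_of_nonneg_left h3 hCp
      have h6 : 0 ≤ |C| * |s - t| := mul_nonneg (abs_nonneg _) (abs_nonneg _)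
      have h7 : 0 ≤ Cp * |s - t| := mul_nonneg hCp (abs_nonneg _)
      nlinarith
  · intro x
    simp only [mul_zero]
    rw [clip_of_nonpos le_rfl, clip_of_nonpos (by norm_num), zero_mul, hP0, mv_zero]
  · intro x hx
    simp only [mul_one]
    rw [chi_far hx, clip_of_one_le (x := 2 - 1) (by norm_num), mul_one, hP1]

end Pool.Agent.H78R3.LN
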